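import Pool.Agent.Helper74.QN.Stm

/-!
# Products of powers of the numbers `m + z ^ a` which are not `l`-th powers
-/

set_option autoImplicit false

namespace Pool.Agent.Helper74.QN.BETA

open NumberField

/-- an integer of order `l` modulo the prime `p ≡ 1 mod l` -/
theorem exists_int (p l : ℕ) (hp : p.Prime) (hl : l.Prime) (hp1 : p ≡ 1 [MOD l]) :
    ∃ r : ℤ, (p : ℤ) ∣ r ^ l - 1 ∧ ¬ (p : ℤ) ∣ r - 1 := by
  have : Fact p.Prime := ⟨hp⟩
  have : Fact l.Prime := ⟨hl⟩
  have hpl : l ∣ p - 1 := (Nat.modEq_iff_dvd' hp.one_lt.le).1 hp1.symm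
  obtain ⟨g, hg⟩ := exists_prime_orderOf_dvd_card (G := (ZMod p)ˣ) l
    (by rw [ZMod.card_units_eq_totient, Nat.totient_prime hp]; exact hpl)
  obtain ⟨r, hr⟩ := ZMod.intCast_surjective (g : ZMod p)
  have h3 : (g : ZMod p) ^ l = 1 := by
    have h := pow_orderOf_eq_one g
    rw [hg] at h
    rw [← Units.val_pow_eq_pow_val, h, Units.val_one]
  refine ⟨r, ?_, ?_⟩
  · rw [← ZMod.intCast_zmod_eq_zero_iff_dvd]
    push_cast
    rw [hr, h3, sub_self]
  · intro h
    rw [← ZMod.intCast_zmod_eq_zero_iff_dvd] at h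
    push_cast at h
    rw [hr, sub_eq_zero] at h
    have : g = 1 := Units.ext h
    rw [this, orderOf_one] at hg
    exact hl.one_lt.ne hg

theorem main : S_BETA := by
  intro E _ _ l z hl hz
  have : Fact l.Prime := ⟨hl⟩
  -- the different
  have hD : differentIdeal ℤ (𝓞 E) ≠ ⊥ := differentIdeal_ne_bot
  set M := Ideal.absNorm (differentIdeal ℤ (𝓞 E)) with hM
  have hM0 : M ≠ 0 := by
    rw [hM, Ne, Ideal.absNorm_eq_zero_iff]
    exact hD
  obtain ⟨p, hp, hpM, hp1⟩ := Nat.exists_prime_gt_modEq_one (k := l) (M + l) hl.ne_zero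
  obtain ⟨r₀, hr₀, hr₀1⟩ := exists_int p l hp hl hp1
  have hp' : Prime (p : ℤ) := Nat.prime_iff_prime_int.1 hp
  -- a prime above `p`
  have hmax : (Ideal.span {(p : ℤ)}).IsMaximal :=
    PrincipalIdealRing.isMaximal_of_irreducible hp'.irreducible
  obtain ⟨P, hP, hPover⟩ := Ideal.exists_maximal_ideal_liesOver_of_isIntegral (S := 𝓞 E)
    (Ideal.span {(p : ℤ)})
  have hPp : P.IsPrime := hP.isPrime
  have hpP : ((p : ℤ) : 𝓞 E) ∈ P := by
    have h1 : (p : ℤ) ∈ Ideal.span {(p : ℤ)} := Ideal.mem_span_singleton_self _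
    rw [hPover.over] at h1
    exact h1
  have hp0 : ((p : ℤ) : 𝓞 E) ≠ 0 := by
    exact_mod_cast hp.ne_zero
  have hPne : P ≠ ⊥ := by
    rintro rfl
    exact hp0 (by simpa using hpP)
  have hPprime : Prime P := Ideal.prime_of_isPrime hPne hPp
  -- integers in `P` are divisible by `p`
  have hint : ∀ k : ℤ, (k : 𝓞 E) ∈ P → (p : ℤ) ∣ k := by
    intro k hk
    rw [← Ideal.mem_span_singleton, hPover.over]
    exact hk
  have hint' : ∀ k : ℤ, (p : ℤ) ∣ k → (k : 𝓞 E) ∈ P := by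
    rintro k ⟨k', rfl⟩
    push_cast
    exact P.mul_mem_right _ (by simpa using hpP)
  -- `P` does not divide the different
  have hPD : ¬ P ∣ differentIdeal ℤ (𝓞 E) := by
    intro h
    have h1 : ((M : ℤ) : 𝓞 E) ∈ P := by
      have h2 : ((M : ℕ) : 𝓞 E) ∈ differentIdeal ℤ (𝓞 E) := Ideal.absNorm_mem _
      have h3 := Ideal.le_of_dvd h h2
      simpa using h3
    have h2 := hint _ h1
    have h3 : p ∣ M := by exact_mod_cast h2
    exact absurd (Nat.le_of_dvd (Nat.pos_of_ne_zero hM0) h3) (by omega)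
  have hP2 : ((p : ℤ) : 𝓞 E) ∉ P ^ 2 := by
    intro h
    apply hPD
    have h1 := pow_sub_one_dvd_differentIdeal ℤ (p := Ideal.span {(p : ℤ)}) P 2
      (by rw [Ne, Ideal.span_singleton_eq_bot]; exact hp'.ne_zero)
      (by rw [Ideal.map_span, Set.image_singleton, Ideal.dvd_span_singleton]; simpa using h)
    simpa using h1
  -- the integer `z`
  have hzint : IsIntegral ℤ z := hz.isIntegral hl.pos
  set w : 𝓞 E := ⟨z, hzint⟩ with hw
  have hwz : (algebraMap (𝓞 E) E) w = z := rfl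
  have hwprim : IsPrimitiveRoot w l := by
    apply IsPrimitiveRoot.of_map_of_injective (f := algebraMap (𝓞 E) E)
    · rw [hwz]; exact hz
    · exact RingOfIntegers.coe_injective
  -- the quotient
  set π := Ideal.Quotient.mk P with hπ
  have hmem : ∀ y : 𝓞 E, π y = 0 ↔ y ∈ P := fun y => Ideal.Quotient.eq_zero_iff_mem
  have hdom : IsDomain (𝓞 E ⧸ P) := Ideal.Quotient.isDomain P
  have hW1 : (π w) ^ l = 1 := by rw [← map_pow, hwprim.pow_eq_one, map_one]
  have hWne : π w ≠ 1 := by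
    intro h
    have h1 := congrArg π (hwprim.geom_sum_eq_zero hl.one_lt)
    rw [map_sum, map_zero] at h1
    simp only [map_pow, h, one_pow, Finset.sum_const, Finset.card_range, nsmul_eq_mul,
      mul_one] at h1
    have h2 : ((l : ℤ) : 𝓞 E) ∈ P := by
      rw [← hmem]
      simpa using h1
    have h3 : p ∣ l := by exact_mod_cast hint _ h2
    exact absurd (Nat.le_of_dvd hl.pos h3) (by omega)
  have hWprim : IsPrimitiveRoot (π w) l := IsPrimitiveRoot.iff_orderOf.2 (orderOf_eq_prime hW1 hWne)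
  have hr0prim : IsPrimitiveRoot (π (r₀ : 𝓞 E)) l := by
    apply IsPrimitiveRoot.iff_orderOf.2
    apply orderOf_eq_prime
    · rw [← map_pow, ← sub_eq_zero, ← map_one π, ← map_sub, hmem]
      have := hint' _ hr₀
      push_cast at this
      exact this
    · rw [Ne, ← sub_eq_zero, ← map_one π, ← map_sub, hmem]
      intro h
      apply hr₀1
      apply hint
      push_cast
      exact h
  obtain ⟨i, -, hi⟩ := hr0prim.eq_pow_of_pow_eq_one hW1
  -- the integer `r` with `v_P (w - r) = 1`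
  obtain ⟨r, hr1, hr2⟩ : ∃ r : ℤ, w - (r : 𝓞 E) ∈ P ∧ w - (r : 𝓞 E) ∉ P ^ 2 := by
    have h1 : w - ((r₀ ^ i : ℤ) : 𝓞 E) ∈ P := by
      rw [← hmem, map_sub, sub_eq_zero, ← hi]
      push_cast
      rw [map_pow]
    by_cases h2 : w - ((r₀ ^ i : ℤ) : 𝓞 E) ∈ P ^ 2
    · refine ⟨r₀ ^ i + p, ?_, ?_⟩
      · have h3 := P.sub_mem h1 hpP
        have h4 : w - ((r₀ ^ i + (p : ℤ) : ℤ) : 𝓞 E) =
            w - ((r₀ ^ i : ℤ) : 𝓞 E) - ((p : ℤ) : 𝓞 E) := by push_cast; ring
        rw [h4]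
        exact h3
      · intro h3
        apply hP2
        have h4 := (P ^ 2).sub_mem h2 h3
        have h5 : w - ((r₀ ^ i : ℤ) : 𝓞 E) - (w - ((r₀ ^ i + (p : ℤ) : ℤ) : 𝓞 E)) =
            ((p : ℤ) : 𝓞 E) := by push_cast; ring
        rw [h5] at h4
        exact h4
    · exact ⟨r₀ ^ i, h1, h2⟩
  have hπr : π (r : 𝓞 E) = π w := by
    have h := (hmem _).2 hr1
    rw [map_sub, sub_eq_zero] at h
    exact h.symm
  have hwr0 : w - (r : 𝓞 E) ≠ 0 := by
    intro h
    rw [h] at hr2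
    exact hr2 (P ^ 2).zero_mem
  have hne : ∀ a : ℕ, w ^ a - (r : 𝓞 E) ≠ 0 := by
    intro a ha
    have h1 : (π w) ^ a = π w := by
      rw [← map_pow, ← hπr, ← sub_eq_zero, ← map_sub, ha, map_zero]
    have h2 : (π w) ^ (a % l) = (π w) ^ 1 := by
      have h3 := pow_mod_orderOf (π w) a
      rw [← hWprim.eq_orderOf] at h3
      rw [h3, h1, pow_one]
    have h3 := hWprim.pow_inj (Nat.mod_lt _ hl.pos) hl.one_lt h2
    have h4 : w ^ a = w := by
      have h5 := pow_mod_orderOf w a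
      rw [← hwprim.eq_orderOf, h3, pow_one] at h5
      exact h5.symm
    rw [h4] at ha
    exact hwr0 ha
  refine ⟨-r, ?_, ?_⟩
  · intro a ha
    apply hne a
    apply RingOfIntegers.coe_injective
    rw [map_sub, map_pow, map_intCast, map_zero, hwz]
    push_cast at ha
    linear_combination ha
  intro c hc x hx
  -- multiplicities
  set μ : 𝓞 E → ℕ := fun a => multiplicity P (Ideal.span {a}) with hμ
  have hfin : ∀ a : 𝓞 E, a ≠ 0 → FiniteMultiplicity P (Ideal.span {a}) := fun a ha =>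
    FiniteMultiplicity.of_prime_left hPprime (by
      rw [Ne, Ideal.zero_eq_bot, Ideal.span_singleton_eq_bot]; exact ha)
  have hmul : ∀ a b : 𝓞 E, a ≠ 0 → b ≠ 0 → μ (a * b) = μ a + μ b := by
    intro a b ha hb
    have h := hfin (a * b) (mul_ne_zero ha hb)
    simp only [hμ]
    rw [← Ideal.span_singleton_mul_span_singleton] at h ⊢
    exact multiplicity_mul hPprime h
  have hzero : ∀ a : 𝓞 E, a ∉ P → μ a = 0 := by
    intro a ha
    simp only [hμ]
    rw [multiplicity_eq_zero, Ideal.dvd_span_singleton]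
    exact ha
  have hpow : ∀ (a : 𝓞 E) (n : ℕ), a ≠ 0 → μ (a ^ n) = n * μ a := by
    intro a n ha
    induction n with
    | zero =>
      rw [pow_zero, zero_mul]
      exact hzero 1 ((Ideal.ne_top_iff_one P).1 hPp.ne_top)
    | succ n ih =>
      rw [pow_succ, hmul _ _ (pow_ne_zero n ha) ha, ih]
      ring
  have hμ1 : μ (w - (r : 𝓞 E)) = 1 := by
    apply multiplicity_eq_of_dvd_of_not_dvd
    · rw [pow_one, Ideal.dvd_span_singleton]
      exact hr1
    · rw [Ideal.dvd_span_singleton]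
      exact hr2
  set Q : 𝓞 E := ∏ a ∈ Finset.Ico 2 l, (w ^ a - (r : 𝓞 E)) ^ c a with hQ
  have hQP : Q ∉ P := by
    intro h
    rw [hQ, Ideal.IsPrime.prod_mem_iff] at h
    obtain ⟨a, ha, h⟩ := h
    rw [Finset.mem_Ico] at ha
    have h1 := hPp.mem_of_pow_mem _ h
    rw [← hmem, map_sub, map_pow, hπr, sub_eq_zero] at h1
    have h2 : (π w) ^ a = (π w) ^ 1 := by rw [h1, pow_one]
    have h3 := hWprim.pow_inj ha.2 hl.one_lt h2
    omega
  have hQ0 : Q ≠ 0 := fun h => hQP (h ▸ P.zero_mem)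
  obtain ⟨u, d, hd, hud⟩ := IsFractionRing.div_surjective (A := 𝓞 E) x
  have hd0 : d ≠ 0 := nonZeroDivisors.ne_zero hd
  have hd0' : algebraMap (𝓞 E) E d ≠ 0 := by
    rw [Ne, FaithfulSMul.algebraMap_eq_zero_iff]
    exact hd0
  have hprod : (algebraMap (𝓞 E) E) ((w - (r : 𝓞 E)) ^ c 1 * Q) =
      ∏ a ∈ Finset.Ico 1 l, (((-r : ℤ) : E) + z ^ a) ^ c a := by
    rw [Finset.prod_eq_prod_Ico_succ_bot hl.one_lt, map_mul, hQ, map_prod]
    congr 1
    · rw [map_pow, map_sub, map_intCast, hwz]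
      push_cast
      ring
    · apply Finset.prod_congr rfl
      intro a _
      rw [map_pow, map_sub, map_pow, map_intCast, hwz]
      push_cast
      ring
  have heq : u ^ l = d ^ l * ((w - (r : 𝓞 E)) ^ c 1 * Q) := by
    apply RingOfIntegers.coe_injective
    rw [map_mul, hprod, ← hx, ← hud, div_pow, map_pow, map_pow]
    field_simp
  have hR0 : (w - (r : 𝓞 E)) ^ c 1 ≠ 0 := pow_ne_zero _ hwr0
  have hu0 : u ≠ 0 := by
    rintro rfl
    rw [zero_pow hl.ne_zero] at heq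
    exact (mul_ne_zero (pow_ne_zero l hd0) (mul_ne_zero hR0 hQ0)) heq.symm
  have hfinal := congrArg μ heq
  rw [hmul _ _ (pow_ne_zero l hd0) (mul_ne_zero hR0 hQ0), hmul _ _ hR0 hQ0, hpow _ _ hu0,
    hpow _ _ hd0, hpow _ _ hwr0, hμ1, hzero Q hQP, mul_one, add_zero] at hfinal
  apply hc
  rw [← Nat.dvd_add_right (Dvd.intro (μ d) rfl : l ∣ l * μ d), ← hfinal]
  exact Dvd.intro _ rfl

end Pool.Agent.Helper74.QN.BETA
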