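import Pool.Agent.Helper74.QN.Stm

set_option autoImplicit false

namespace Pool.Agent.Helper74.QN.CHI

open Subgroup

theorem main : S_CHI := by
  intro G _ l n b u hl hn hdvd hu hne k _ w hw
  haveI : Fact l.Prime := ⟨hl⟩
  haveI : NeZero l := ⟨hl.ne_zero⟩
  set t := Nat.card b.range / n with ht
  have hcard : Nat.card b.range = n * t := (Nat.mul_div_cancel' hdvd).symm
  have hpos : 0 < Nat.card b.range := Nat.card_pos
  have ht0 : 0 < t := by
    rcases Nat.eq_zero_or_pos t with h | h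
    · rw [h, mul_zero] at hcard; omega
    · exact h
  -- the subgroup
  let bt : G →* (ZMod l)ˣ := (powMonoidHom t).comp b
  have hbt : ∀ g, bt g = b g ^ t := fun g => rfl
  let N : Subgroup G := bt.ker
  have hN : ∀ g, g ∈ N ↔ b g ^ t = 1 := fun g => by
    rw [MonoidHom.mem_ker, hbt]
  have hindex : N.index = n := by
    have h1 : N.index = Nat.card bt.range := Subgroup.index_ker bt
    have h2 : bt.range = (b.range).map (powMonoidHom t) := by
      rw [MonoidHom.range_comp]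
    have h3 : Nat.card ((b.range).map (powMonoidHom t)) =
        Nat.card (powMonoidHom t : b.range →* b.range).range := by
      have : (b.range).map (powMonoidHom t) =
          ((powMonoidHom t : b.range →* b.range).range).map b.range.subtype := by
        ext x
        simp only [Subgroup.mem_map, MonoidHom.mem_range, powMonoidHom_apply, Subgroup.coe_subtype]
        constructor
        · rintro ⟨y, ⟨g, rfl⟩, rfl⟩
          exact ⟨⟨b g ^ t, ⟨g ^ t, map_pow b g t⟩⟩, ⟨⟨b g, ⟨g, rfl⟩⟩, rfl⟩, rfl⟩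
        · rintro ⟨y, ⟨z, rfl⟩, rfl⟩
          exact ⟨z, z.2, rfl⟩
      rw [this]
      exact (Nat.card_congr (Subgroup.equivMapOfInjective _ _
        b.range.subtype_injective).toEquiv).symm
    rw [h1, h2, h3, IsCyclic.card_powMonoidHom_range, hcard, Nat.gcd_eq_right (Dvd.intro_left _ rfl),
      Nat.mul_div_cancel _ ht0]
  have hker : ∀ g : N, ((g : G) ^ t) ∈ b.ker := fun g => by
    rw [MonoidHom.mem_ker, map_pow]
    exact (hN g).1 g.2
  have hle : b.ker ≤ N := fun g hg => by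
    rw [hN, MonoidHom.mem_ker.1 hg, one_pow]
  -- the kernel of `u`, in `N`
  have hconj : ∀ (g : G) (τ : G) (hτ : τ ∈ b.ker), ∃ h' : g * τ * g⁻¹ ∈ b.ker,
      (u ⟨g * τ * g⁻¹, h'⟩).toAdd = (b g : ZMod l) ^ t * (u ⟨τ, hτ⟩).toAdd := by
    intro g τ hτ
    have h' : g * τ * g⁻¹ ∈ b.ker := (MonoidHom.normal_ker b).conj_mem τ hτ g
    exact ⟨h', hu g ⟨τ, hτ⟩ ⟨_, h'⟩ rfl⟩
  let K : Subgroup N :=
    { carrier := {x | ∃ hx : (x : G) ∈ b.ker, u ⟨x, hx⟩ = 1}
      one_mem' := ⟨one_mem _, map_one u⟩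
      mul_mem' := by
        rintro x y ⟨hx, hx1⟩ ⟨hy, hy1⟩
        refine ⟨mul_mem hx hy, ?_⟩
        have := map_mul u ⟨x, hx⟩ ⟨y, hy⟩
        rw [hx1, hy1, mul_one] at this
        exact this
      inv_mem' := by
        rintro x ⟨hx, hx1⟩
        refine ⟨inv_mem hx, ?_⟩
        have := map_inv u ⟨x, hx⟩
        rw [hx1, inv_one] at this
        exact this }
  haveI hKn : K.Normal := by
    refine ⟨fun x hx g => ?_⟩
    obtain ⟨hx, hx1⟩ := hx
    obtain ⟨h', h2⟩ := hconj (g : G) x hx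
    refine ⟨h', ?_⟩
    rw [hx1, toAdd_one, mul_zero] at h2
    exact Multiplicative.toAdd.injective h2
  -- `N / K` is commutative
  let f0 : N →* (ZMod l)ˣ := b.comp N.subtype
  have hKf : ∀ x ∈ K, f0 x = 1 := by
    rintro x ⟨hx, -⟩
    exact hx
  let f1 : N ⧸ K →* (ZMod l)ˣ := QuotientGroup.lift K f0 hKf
  have hcomm : ∀ x y : N ⧸ K, x * y = y * x := by
    suffices hcc : f1.ker ≤ Subgroup.center (N ⧸ K) from
      (f1.isMulCommutative_of_isCyclic_of_ker_le_center hcc).is_comm.comm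
    intro x hx
    obtain ⟨x, rfl⟩ := QuotientGroup.mk_surjective x
    have hx' : (x : G) ∈ b.ker := by
      have : f1 (x : N ⧸ K) = b x := rfl
      rw [MonoidHom.mem_ker, this] at hx
      exact hx
    rw [Subgroup.mem_center_iff]
    intro g
    obtain ⟨g, rfl⟩ := QuotientGroup.mk_surjective g
    change ((g * x : N) : N ⧸ K) = ((x * g : N) : N ⧸ K)
    rw [QuotientGroup.eq]
    -- `(g x)⁻¹ (x g) ∈ K`; equivalently conjugation
    obtain ⟨h', h2⟩ := hconj (((g : G))⁻¹) x hx'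
    have hgN : (b ((g : G)⁻¹) : ZMod l) ^ t = 1 := by
      rw [map_inv]
      have h3 : (b (g : G)) ^ t = 1 := (hN g).1 g.2
      have h4 : ((b (g : G))⁻¹) ^ t = 1 := by rw [inv_pow, h3, inv_one]
      have h5 := congrArg (Units.val) h4
      rwa [Units.val_pow_eq_pow_val, Units.val_one] at h5
    rw [hgN, one_mul] at h2
    have h3 : u ⟨(g : G)⁻¹ * x * ((g : G)⁻¹)⁻¹, h'⟩ = u ⟨x, hx'⟩ := Multiplicative.toAdd.injective h2
    have hmem : ((g * x)⁻¹ * (x * g) : N) ∈ K := by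
      have h4 : (((g * x)⁻¹ * (x * g) : N) : G) = (x : G)⁻¹ * ((g : G)⁻¹ * x * ((g : G)⁻¹)⁻¹) := by
        simp only [Subgroup.coe_mul, InvMemClass.coe_inv]
        group
      have h5 : (((g * x)⁻¹ * (x * g) : N) : G) ∈ b.ker := by
        rw [h4]
        exact mul_mem (inv_mem hx') h'
      refine ⟨h5, ?_⟩
      have h6 : (⟨_, h5⟩ : b.ker) = (⟨x, hx'⟩ : b.ker)⁻¹ * ⟨_, h'⟩ := Subtype.ext h4
      rw [h6, map_mul, map_inv, h3, inv_mul_cancel]
    exact hmem
  -- the homomorphism `f`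
  have hmul : ∀ x y : N, u ⟨((x * y : N) : G) ^ t, hker (x * y)⟩ =
      u ⟨(x : G) ^ t, hker x⟩ * u ⟨(y : G) ^ t, hker y⟩ := by
    intro x y
    have h1 : (((x * y) ^ t : N) : N ⧸ K) = ((x ^ t * y ^ t : N) : N ⧸ K) := by
      have h2 : Commute (x : N ⧸ K) (y : N ⧸ K) := hcomm _ _
      have h3 := h2.mul_pow t
      exact h3
    rw [QuotientGroup.eq] at h1
    obtain ⟨h5, h6⟩ := h1
    have h7 : (⟨_, h5⟩ : b.ker) = (⟨((x * y : N) : G) ^ t, hker (x * y)⟩ : b.ker)⁻¹ *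
        (⟨(x : G) ^ t, hker x⟩ * ⟨(y : G) ^ t, hker y⟩) := Subtype.ext (by
      simp)
    rw [h7, map_mul, map_mul, map_inv] at h6
    exact inv_mul_eq_one.1 h6
  let f : N →* Multiplicative (ZMod l) :=
    MonoidHom.mk' (fun x => u ⟨(x : G) ^ t, hker x⟩) hmul
  have hf : ∀ x : N, f x = u ⟨(x : G) ^ t, hker x⟩ := fun _ => rfl
  -- the character
  have hζ : w ^ l = 1 := hw.pow_eq_one
  let ζ : kˣ := Units.mk0 w (hw.ne_zero hl.ne_zero)
  have hζl : ζ ^ l = 1 := Units.ext hζ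
  let c0 : Multiplicative (ZMod l) →* kˣ := MonoidHom.mk' (fun a => ζ ^ (a.toAdd).val) (by
    intro a a'
    simp only [toAdd_mul]
    rw [ZMod.val_add, ← pow_add]
    conv_rhs => rw [← Nat.div_add_mod ((a.toAdd).val + (a'.toAdd).val) l, pow_add, pow_mul, hζl,
      one_pow, one_mul])
  have hc0 : Function.Injective c0 := by
    intro a a' h
    have h1 : ζ ^ (a.toAdd).val = ζ ^ (a'.toAdd).val := h
    have h2 := congrArg Units.val h1
    simp only [Units.val_pow_eq_pow_val] at h2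
    have h3 := hw.pow_inj (ZMod.val_lt _) (ZMod.val_lt _) h2
    exact Multiplicative.toAdd.injective (ZMod.val_injective l h3)
  have htl : ((t : ℕ) : ZMod l) ≠ 0 := by
    rw [Ne, ZMod.natCast_eq_zero_iff]
    intro h
    have h1 : t ∣ l - 1 := by
      have h2 : Nat.card b.range ∣ Nat.card (ZMod l)ˣ := Subgroup.card_subgroup_dvd_card _
      have h3 : Nat.card (ZMod l)ˣ = l - 1 := by
        rw [Nat.card_eq_fintype_card, ZMod.card_units_eq_totient, Nat.totient_prime hl]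
      rw [h3, hcard] at h2
      exact (Dvd.intro_left _ rfl).trans h2
    have h2 := Nat.le_of_dvd (by have := hl.two_le; omega) (h.trans h1)
    have := hl.two_le
    omega
  refine ⟨N, c0.comp f, MonoidHom.normal_ker bt, hindex, ?_, ?_, ?_⟩
  · intro s hs
    obtain ⟨τ, hτ⟩ := hne
    have hτN : (τ : G) ∈ N := hle τ.2
    have hN' : s * (τ : G) * s⁻¹ ∈ N := (MonoidHom.normal_ker bt).conj_mem _ hτN s
    refine ⟨⟨τ, hτN⟩, hN', fun h => ?_⟩
    have h1 : f ⟨s * τ * s⁻¹, hN'⟩ = f ⟨τ, hτN⟩ := hc0 h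
    rw [hf, hf] at h1
    obtain ⟨h', h2⟩ := hconj s ((τ : G) ^ t) (pow_mem τ.2 t)
    have h3 : (⟨(s * (τ : G) * s⁻¹) ^ t, hker ⟨_, hN'⟩⟩ : b.ker) = ⟨s * (τ : G) ^ t * s⁻¹, h'⟩ :=
      Subtype.ext (by simp [conj_pow])
    have h4 : (⟨(τ : G) ^ t, hker ⟨_, hτN⟩⟩ : b.ker) = τ ^ t := Subtype.ext (by simp)
    have h5 : (⟨(τ : G) ^ t, pow_mem τ.2 t⟩ : b.ker) = τ ^ t := Subtype.ext (by simp)
    have h6 : u ⟨s * (τ : G) ^ t * s⁻¹, h'⟩ = u (τ ^ t) := by
      rw [← h3]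
      exact h1.trans (by rw [h4])
    rw [h6, h5, map_pow, toAdd_pow, nsmul_eq_mul] at h2
    have h7 : (((b s : ZMod l) ^ t - 1) * ((t : ZMod l) * (u τ).toAdd)) = 0 := by
      rw [sub_mul, one_mul, ← h2, sub_self]
    rcases mul_eq_zero.1 h7 with h8 | h8
    · apply hs
      rw [hN]
      apply Units.ext
      rw [Units.val_pow_eq_pow_val, Units.val_one]
      exact sub_eq_zero.1 h8
    · rcases mul_eq_zero.1 h8 with h9 | h9
      · exact htl h9
      · exact hτ (Multiplicative.toAdd.injective h9)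
  · intro x
    change (ζ ^ _) ^ l = 1
    rw [← pow_mul, mul_comm, pow_mul, hζl, one_pow]
  · intro g hg x
    have hN' : x * (g : G) * x⁻¹ ∈ N := (MonoidHom.normal_ker bt).conj_mem _ (hle g.2) x
    refine ⟨hN', ?_⟩
    obtain ⟨h', h2⟩ := hconj x (g : G) g.2
    have h3 : u ⟨x * (g : G) * x⁻¹, h'⟩ = 1 := by
      have h4 : (⟨(g : G), g.2⟩ : b.ker) = g := rfl
      rw [h4, hg, toAdd_one, mul_zero] at h2
      exact Multiplicative.toAdd.injective h2
    have h4 : f ⟨x * g * x⁻¹, hN'⟩ = 1 := by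
      rw [hf]
      have h5 : (⟨(x * (g : G) * x⁻¹) ^ t, hker ⟨_, hN'⟩⟩ : b.ker) = ⟨x * g * x⁻¹, h'⟩ ^ t :=
        Subtype.ext (by simp)
      exact (congrArg u h5).trans (by rw [map_pow, h3, one_pow])
    rw [MonoidHom.comp_apply, h4, map_one]

end Pool.Agent.Helper74.QN.CHI
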