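import Pool.Agent.Helper74.QN.Stm

/-!
# Module IND: the representation induced from a character of a normal subgroup of index `n`
(adapted from `Pool.Agent.Helper74.QR.IND` of helper15)
-/

set_option autoImplicit false

open scoped Classical

namespace Pool.Agent.Helper74.QN.IND

open Matrix

section

variable {G : Type} [Group G] {N : Subgroup G} {n : ℕ} {k : Type} [Field k] (χ : N →* kˣ)

/-- the character, extended by zero -/
noncomputable def c (g : G) : k := if h : g ∈ N then ((χ ⟨g, h⟩ : kˣ) : k) else 0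

theorem c_mem {g : G} (h : g ∈ N) : c χ g = ((χ ⟨g, h⟩ : kˣ) : k) := dif_pos h

theorem c_not {g : G} (h : g ∉ N) : c χ g = 0 := dif_neg h

theorem c_one : c χ (1 : G) = 1 := by
  rw [c_mem χ (one_mem N)]
  have : (⟨1, one_mem N⟩ : N) = 1 := rfl
  rw [this, map_one, Units.val_one]

theorem c_mul {g h : G} (hh : h ∈ N) : c χ (g * h) = c χ g * c χ h := by
  by_cases hg : g ∈ N
  · rw [c_mem χ (mul_mem hg hh), c_mem χ hg, c_mem χ hh, ← Units.val_mul, ← map_mul]
    rfl
  · have : g * h ∉ N := fun h1 => hg (by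
      have := mul_mem h1 (inv_mem hh)
      rwa [mul_inv_cancel_right] at this)
    rw [c_not χ this, c_not χ hg, zero_mul]

theorem c_mul' {g h : G} (hg : g ∈ N) : c χ (g * h) = c χ g * c χ h := by
  by_cases hh : h ∈ N
  · exact c_mul χ hh
  · have : g * h ∉ N := fun h1 => hh (by
      have := mul_mem (inv_mem hg) h1
      rwa [inv_mul_cancel_left] at this)
    rw [c_not χ this, c_not χ hh, mul_zero]

theorem c_ne {g : G} (h : g ∈ N) : c χ g ≠ 0 := by
  rw [c_mem χ h]
  exact Units.ne_zero _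

variable {r : Fin n → G} (hr : ∀ g : G, ∃! i, (r i)⁻¹ * g ∈ N)

/-- the matrices -/
noncomputable def mat (r : Fin n → G) (g : G) : Matrix (Fin n) (Fin n) k :=
  Matrix.of fun i j => c χ ((r i)⁻¹ * g * r j)

include hr in
theorem mem_iff (i j : Fin n) : (r i)⁻¹ * r j ∈ N ↔ i = j := by
  constructor
  · intro h
    exact (hr (r j)).unique h (by rw [inv_mul_cancel]; exact one_mem N)
  · rintro rfl
    rw [inv_mul_cancel]
    exact one_mem N

include hr in
theorem mat_one : mat χ r (1 : G) = 1 := by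
  ext i j
  rw [mat, Matrix.of_apply, mul_one]
  by_cases h : i = j
  · subst h
    rw [inv_mul_cancel, c_one, Matrix.one_apply_eq]
  · rw [c_not χ (fun h1 => h ((mem_iff hr i j).1 h1)), Matrix.one_apply_ne h]

include hr in
theorem mat_mul (g h : G) : mat χ r (g * h) = mat χ r g * mat χ r h := by
  ext i j
  rw [Matrix.mul_apply]
  obtain ⟨l, hl, hu⟩ := hr (h * r j)
  rw [Finset.sum_eq_single l]
  · simp only [mat, Matrix.of_apply]
    rw [mul_assoc (r l)⁻¹, ← c_mul χ hl]
    congr 1
    group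
  · intro b _ hb
    have : (r b)⁻¹ * h * r j ∉ N := by
      rw [mul_assoc]
      exact fun h1 => hb (hu b h1)
    simp only [mat, Matrix.of_apply]
    rw [c_not χ this, mul_zero]
  · intro h1
    exact absurd (Finset.mem_univ _) h1

/-- the representation -/
noncomputable def rep : G →* Matrix.GeneralLinearGroup (Fin n) k :=
  MonoidHom.toHomUnits
    { toFun := mat χ r
      map_one' := mat_one χ hr
      map_mul' := mat_mul χ hr }

theorem rep_val (g : G) : ((rep χ hr g : Matrix.GeneralLinearGroup (Fin n) k) :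
    Matrix (Fin n) (Fin n) k) = mat χ r g := rfl

/-- the kernel -/
theorem rep_one (g : G) (hg : ∀ x : G, ∃ h : x * g * x⁻¹ ∈ N, χ ⟨x * g * x⁻¹, h⟩ = 1) :
    rep χ hr g = 1 := by
  apply Units.ext
  rw [rep_val, Units.val_one, ← mat_one χ hr]
  ext i j
  simp only [mat, Matrix.of_apply]
  obtain ⟨h, h1⟩ := hg (r i)⁻¹
  rw [inv_inv] at h
  have h2 : c χ ((r i)⁻¹ * g * r i) = 1 := by
    rw [c_mem χ h]
    have h3 : (⟨(r i)⁻¹ * g * r i, h⟩ : N) = ⟨(r i)⁻¹ * g * (r i)⁻¹⁻¹, by rw [inv_inv]; exact h⟩ := by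
      apply Subtype.ext
      simp
    rw [h3, h1, Units.val_one]
  have h4 : (r i)⁻¹ * g * r j = ((r i)⁻¹ * g * r i) * ((r i)⁻¹ * 1 * r j) := by group
  rw [h4, c_mul' χ h, h2, one_mul]

end

theorem main : S_IND := by
  intro G _ N d k _ χ hN hd hidx hs
  have := hN
  have hcard : Nat.card (G ⧸ N) = d := hidx
  have hfin : Finite (G ⧸ N) := Nat.finite_of_card_ne_zero (by omega)
  let e : Fin d ≃ G ⧸ N := (Finite.equivFinOfCardEq hcard).symm
  let r : Fin d → G := fun i => (e i).out
  have hre : ∀ i, ((r i : G) : G ⧸ N) = e i := fun i => QuotientGroup.out_eq' (e i)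
  have hr' : ∀ g : G, ∃! i, (r i)⁻¹ * g ∈ N := by
    intro g
    refine ⟨e.symm (g : G ⧸ N), ?_, ?_⟩
    · show (r (e.symm (g : G ⧸ N)))⁻¹ * g ∈ N
      rw [← QuotientGroup.eq, hre, Equiv.apply_symm_apply]
    · intro i hi
      have h1 : (r i)⁻¹ * g ∈ N := hi
      rw [← QuotientGroup.eq, hre] at h1
      rw [← h1, Equiv.symm_apply_apply]
  refine ⟨rep χ hr', ?_, fun g hg => rep_one χ hr' g hg, ?_⟩
  · intro V hV
    rw [or_iff_not_imp_left]
    intro hbot
    set K := AlgebraicClosure k
    let f : k →+* K := algebraMap k K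
    have hfinj : Function.Injective f := (algebraMap k K).injective
    have hdist : ∀ i j : Fin d, i ≠ j → ∃ n ∈ N,
        c χ ((r i)⁻¹ * n * r i) ≠ c χ ((r j)⁻¹ * n * r j) := by
      intro i j hij
      have h0 : (r j)⁻¹ * r i ∉ N := fun h => hij ((mem_iff hr' j i).1 h).symm
      obtain ⟨x, hx, hne⟩ := hs _ h0
      refine ⟨r i * (x : G) * (r i)⁻¹, hN.conj_mem _ x.2 (r i), ?_⟩
      have h1 : (r i)⁻¹ * (r i * (x : G) * (r i)⁻¹) * r i = x := by group
      have h2 : (r j)⁻¹ * (r i * (x : G) * (r i)⁻¹) * r j =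
          (r j)⁻¹ * r i * (x : G) * ((r j)⁻¹ * r i)⁻¹ := by group
      rw [h1, h2, c_mem χ hx, c_mem χ x.2]
      intro h
      exact hne (Units.ext h).symm
    -- the action of `N`
    have hact : ∀ n ∈ N, ∀ x ∈ V, (fun i => f (c χ ((r i)⁻¹ * n * r i)) * x i) ∈ V := by
      intro n hn x hx
      have h1 := hV n x hx
      have h2 : ((rep χ hr' n : Matrix (Fin d) (Fin d) k).map (algebraMap k K)).mulVec x =
          (fun i => f (c χ ((r i)⁻¹ * n * r i)) * x i) := by
        ext i
        rw [Matrix.mulVec, dotProduct, Finset.sum_eq_single i]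
        · rfl
        · intro b _ hb
          rw [Matrix.map_apply, rep_val, mat, Matrix.of_apply]
          have h3 : (r i)⁻¹ * n * r b ∉ N := by
            intro h4
            have h5 : (r i)⁻¹ * n * (r i)⁻¹⁻¹ ∈ N := hN.conj_mem n hn _
            have h6 := mul_mem (inv_mem h5) h4
            have h7 : ((r i)⁻¹ * n * (r i)⁻¹⁻¹)⁻¹ * ((r i)⁻¹ * n * r b) = (r i)⁻¹ * r b := by group
            rw [h7] at h6
            exact hb ((mem_iff hr' i b).1 h6).symm
          rw [c_not χ h3, map_zero, zero_mul]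
        · intro h
          exact absurd (Finset.mem_univ _) h
      rw [← h2]
      exact h1
    obtain ⟨x, hxV, hx0⟩ := (Submodule.ne_bot_iff V).1 hbot
    obtain ⟨i, hi⟩ := Function.ne_iff.1 hx0
    have hS : ∀ S : Finset (Fin d), i ∉ S → ∃ y ∈ V, y i ≠ 0 ∧ ∀ j ∈ S, y j = 0 := by
      intro S
      induction S using Finset.induction_on with
      | empty => exact fun _ => ⟨x, hxV, hi, by simp⟩
      | insert a S ha ih =>
        intro hiS
        rw [Finset.mem_insert, not_or] at hiS
        obtain ⟨y, hy, hyi, hyS⟩ := ih hiS.2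
        obtain ⟨n, hn, hnn⟩ := hdist i a hiS.1
        refine ⟨(fun l => f (c χ ((r l)⁻¹ * n * r l)) * y l) - f (c χ ((r a)⁻¹ * n * r a)) • y,
          V.sub_mem (hact n hn y hy) (V.smul_mem _ hy), ?_, ?_⟩
        · rw [Pi.sub_apply, Pi.smul_apply, smul_eq_mul, ← sub_mul]
          refine mul_ne_zero ?_ hyi
          rw [sub_ne_zero]
          exact fun h => hnn (hfinj h)
        · intro l hl
          rw [Pi.sub_apply, Pi.smul_apply, smul_eq_mul, ← sub_mul]
          rcases Finset.mem_insert.1 hl with rfl | hl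
          · rw [sub_self, zero_mul]
          · rw [hyS l hl, mul_zero]
    obtain ⟨y, hyV, hyi, hyz⟩ := hS (Finset.univ.erase i) (Finset.notMem_erase _ _)
    have hei : (Pi.single i 1 : Fin d → K) ∈ V := by
      have h1 : (Pi.single i 1 : Fin d → K) = (y i)⁻¹ • y := by
        ext l
        by_cases hl : l = i
        · subst hl
          rw [Pi.single_eq_same, Pi.smul_apply, smul_eq_mul, inv_mul_cancel₀ hyi]
        · rw [Pi.single_eq_of_ne hl, Pi.smul_apply,
            hyz l (Finset.mem_erase.2 ⟨hl, Finset.mem_univ _⟩), smul_zero]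
      rw [h1]
      exact V.smul_mem _ hyV
    have hej : ∀ j : Fin d, (Pi.single j 1 : Fin d → K) ∈ V := by
      intro j
      have h1 := hV (r j * (r i)⁻¹) _ hei
      have h2 : ((rep χ hr' (r j * (r i)⁻¹) : Matrix (Fin d) (Fin d) k).map
          (algebraMap k K)).mulVec (Pi.single i 1) = Pi.single j 1 := by
        rw [Matrix.mulVec_single_one]
        ext l
        rw [Matrix.col_apply, Matrix.map_apply, rep_val, mat, Matrix.of_apply]
        have h3 : (r l)⁻¹ * (r j * (r i)⁻¹) * r i = (r l)⁻¹ * r j := by group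
        rw [h3]
        by_cases hl : l = j
        · subst hl
          rw [inv_mul_cancel, c_one, map_one, Pi.single_eq_same]
        · rw [c_not χ (fun h4 => hl ((mem_iff hr' l j).1 h4)), map_zero, Pi.single_eq_of_ne hl]
      rw [h2] at h1
      exact h1
    rw [eq_top_iff]
    intro v _
    have hv : v = ∑ j : Fin d, v j • (Pi.single j 1 : Fin d → K) := by
      ext l
      rw [Finset.sum_apply, Finset.sum_eq_single l]
      · rw [Pi.smul_apply, Pi.single_eq_same, smul_eq_mul, mul_one]
      · intro b _ hb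
        rw [Pi.smul_apply, Pi.single_eq_of_ne hb.symm, smul_zero]
      · intro h
        exact absurd (Finset.mem_univ _) h
    rw [hv]
    exact V.sum_mem fun j _ => V.smul_mem _ (hej j)
  · intro M hM g
    rw [← map_pow]
    apply rep_one
    intro x
    have h1 : x * g ^ d * x⁻¹ ∈ N := by
      refine hN.conj_mem _ ?_ x
      have := N.pow_index_mem g
      rwa [hidx] at this
    have h2 : x * g ^ (d * M) * x⁻¹ = (x * g ^ d * x⁻¹) ^ M := by
      rw [conj_pow, pow_mul]
    have h3 : x * g ^ (d * M) * x⁻¹ ∈ N := by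
      rw [h2]
      exact pow_mem h1 M
    refine ⟨h3, ?_⟩
    have h4 : (⟨x * g ^ (d * M) * x⁻¹, h3⟩ : N) = (⟨x * g ^ d * x⁻¹, h1⟩ : N) ^ M := by
      apply Subtype.ext
      exact h2
    rw [h4, map_pow, hM]

end Pool.Agent.Helper74.QN.IND
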