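import Pool.Agent.Helper74.QN.Stm

/-!
# Project QN: module KUM (Kummer theory)
-/

set_option autoImplicit false

namespace Pool.Agent.Helper74.QN.KUM

open NumberField IntermediateField

section aux

variable {Ω : Type} [Field Ω] {l : ℕ} {z : Ω}

lemma pow_mod (hz : IsPrimitiveRoot z l) (i : ℕ) : z ^ (i % l) = z ^ i := by
  rw [hz.eq_orderOf]
  exact pow_mod_orderOf z i

lemma pow_iff (hl : 0 < l) (hz : IsPrimitiveRoot z l) (i j : ℕ) :
    z ^ i = z ^ j ↔ (i : ZMod l) = (j : ZMod l) := by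
  rw [ZMod.natCast_eq_natCast_iff]
  constructor
  · intro h
    rw [← pow_mod hz i, ← pow_mod hz j] at h
    exact hz.pow_inj (Nat.mod_lt _ hl) (Nat.mod_lt _ hl) h
  · intro h
    rw [← pow_mod hz i, ← pow_mod hz j]
    rw [show i % l = j % l from h]

lemma exists_root (hl : l.Prime) (hz : IsPrimitiveRoot z l) {a c : Ω} (h : a ^ l = c ^ l)
    (hc : c ≠ 0) : ∃ i : ℕ, a = c * z ^ i := by
  have : NeZero l := ⟨hl.ne_zero⟩
  have h1 : (a / c) ^ l = 1 := by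
    rw [div_pow, h, div_self (pow_ne_zero _ hc)]
  obtain ⟨i, -, hi⟩ := hz.eq_pow_of_pow_eq_one h1
  exact ⟨i, by rw [hi, mul_div_cancel₀ _ hc]⟩

/-- the product reordered by `a ↦ e a mod l` -/
lemma reorder (hl : l.Prime) (hz : IsPrimitiveRoot z l) (m : ℤ) (s e : ℕ)
    (he : ((e : ℕ) : ZMod l) ≠ 0) :
    ∃ q : ℕ → ℕ, (∏ a ∈ Finset.Ico 1 l, ((m : Ω) + (z ^ e) ^ a) ^ a ^ s) ^ e ^ s =
      (∏ a ∈ Finset.Ico 1 l, ((m : Ω) + z ^ a) ^ a ^ s) *
        (∏ a ∈ Finset.Ico 1 l, ((m : Ω) + z ^ a) ^ q a) ^ l := by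
  have : Fact l.Prime := ⟨hl⟩
  have hmaps : Set.MapsTo (fun a : ℕ => (e * a) % l) (Finset.Ico 1 l : Set ℕ)
      (Finset.Ico 1 l : Set ℕ) := by
    intro a ha
    rw [Finset.mem_coe, Finset.mem_Ico] at ha ⊢
    refine ⟨Nat.one_le_iff_ne_zero.2 fun h0 => ?_, Nat.mod_lt _ hl.pos⟩
    have h1 : ((e * a : ℕ) : ZMod l) = 0 := (ZMod.natCast_eq_zero_iff _ _).2 (Nat.dvd_of_mod_eq_zero h0)
    rw [Nat.cast_mul, mul_eq_zero] at h1
    rcases h1 with h1 | h1
    · exact he h1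
    · have h2 := (ZMod.natCast_eq_zero_iff _ _).1 h1
      exact absurd (Nat.le_of_dvd (by omega) h2) (by omega)
  have hinj : Set.InjOn (fun a : ℕ => (e * a) % l) (Finset.Ico 1 l : Set ℕ) := by
    intro a ha c hc hac
    rw [Finset.mem_coe, Finset.mem_Ico] at ha hc
    have h1 : ((e * a : ℕ) : ZMod l) = ((e * c : ℕ) : ZMod l) :=
      (ZMod.natCast_eq_natCast_iff _ _ _).2 hac
    rw [Nat.cast_mul, Nat.cast_mul] at h1
    have h2 := mul_left_cancel₀ he h1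
    have h3 := (ZMod.natCast_eq_natCast_iff _ _ _).1 h2
    exact Nat.ModEq.eq_of_lt_of_lt h3 ha.2 hc.2
  have hsurj : Set.SurjOn (fun a : ℕ => (e * a) % l) (Finset.Ico 1 l : Set ℕ)
      (Finset.Ico 1 l : Set ℕ) := Finset.surjOn_of_injOn_of_card_le _ hmaps hinj le_rfl
  -- the inverse
  have hsurj' : ∀ c : ℕ, ∃ a : ℕ, c ∈ Finset.Ico 1 l → a ∈ (Finset.Ico 1 l : Set ℕ) ∧ (e * a) % l = c := by
    intro c
    by_cases hc : c ∈ Finset.Ico 1 l
    · obtain ⟨a, ha, ha2⟩ := hsurj (Finset.mem_coe.2 hc)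
      exact ⟨a, fun _ => ⟨ha, ha2⟩⟩
    · exact ⟨0, fun h => absurd h hc⟩
  choose r hr using hsurj'
  have key : ∀ c ∈ Finset.Ico 1 l, ∃ q : ℕ, (e * r c) ^ s = c ^ s + l * q := by
    intro c hc
    have h1 := (hr c hc).2
    have h2 : c ≤ e * r c := by
      conv_lhs => rw [← h1]
      exact Nat.mod_le _ _
    have h3 : c ^ s ≤ (e * r c) ^ s := Nat.pow_le_pow_left h2 s
    have h4 : c ≡ e * r c [MOD l] := by
      conv_lhs => rw [← h1]
      exact Nat.mod_modEq _ _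
    have h5 : l ∣ (e * r c) ^ s - c ^ s := (Nat.modEq_iff_dvd' h3).1 (h4.pow s)
    obtain ⟨q, hq⟩ := h5
    exact ⟨q, by omega⟩
  choose! q hq using key
  refine ⟨q, ?_⟩
  rw [← Finset.prod_pow, ← Finset.prod_pow, ← Finset.prod_mul_distrib]
  refine Finset.prod_nbij (fun a : ℕ => (e * a) % l) hmaps hinj
    (Finset.surjOn_of_injOn_of_card_le _ hmaps hinj le_rfl) ?_
  intro a ha
  have h1 := hmaps (Finset.mem_coe.2 ha)
  have h2 : r ((e * a) % l) = a :=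
    hinj (hr _ (Finset.mem_coe.1 h1)).1 (Finset.mem_coe.2 ha) (hr _ (Finset.mem_coe.1 h1)).2
  have h3 := hq _ (Finset.mem_coe.1 h1)
  simp only at h3
  rw [h2] at h3
  rw [← pow_mul, ← pow_mul, ← pow_mul, pow_mod hz, ← mul_pow, mul_comm a e, h3, pow_add]
  congr 1
  rw [Nat.mul_comm l (q _)]

end aux

theorem main : S_KUM := by
  intro F Ω _ _ _ _ _ l z y m t b hl hz hb ht hm hy hnot
  have : Fact l.Prime := ⟨hl⟩
  have : NeZero l := ⟨hl.ne_zero⟩
  have hG : IsGalois F Ω := IsAlgClosure.isGalois F Ω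
  set β : Ω := ∏ a ∈ Finset.Ico 1 l, ((m : Ω) + z ^ a) ^ a ^ (t - 1) with hβ
  have hβ0 : β ≠ 0 := Finset.prod_ne_zero_iff.2 fun a _ => pow_ne_zero _ (hm a)
  have hy0 : y ≠ 0 := by
    rintro rfl
    rw [zero_pow hl.ne_zero] at hy
    exact hβ0 hy.symm
  have hz0 : z ≠ 0 := hz.ne_zero hl.ne_zero
  have hfix : ∀ τ : b.ker, (τ : Ω ≃ₐ[F] Ω) z = z := by
    intro τ
    rw [hb, MonoidHom.mem_ker.1 τ.2, Units.val_one, ZMod.val_one, pow_one]
  have hfixβ : ∀ τ : b.ker, (τ : Ω ≃ₐ[F] Ω) β = β := by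
    intro τ
    rw [hβ, map_prod]
    refine Finset.prod_congr rfl fun a _ => ?_
    rw [map_pow, map_add, map_intCast, map_pow, hfix]
  have hex : ∀ τ : b.ker, ∃ i : ℕ, (τ : Ω ≃ₐ[F] Ω) y = y * z ^ i := by
    intro τ
    refine exists_root hl hz ?_ hy0
    rw [← map_pow, hy, hfixβ]
  choose k hk using hex
  have hmul : ∀ τ σ : b.ker, ((k (τ * σ) : ℕ) : ZMod l) = (k τ : ZMod l) + (k σ : ZMod l) := by
    intro τ σ
    have h1 := hk (τ * σ)
    rw [Subgroup.coe_mul, AlgEquiv.mul_apply, hk σ, map_mul, hk τ, map_pow, hfix, mul_assoc] at h1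
    have h2 := mul_left_cancel₀ hy0 h1
    rw [← pow_add, pow_iff hl.pos hz] at h2
    rw [← h2, Nat.cast_add]
  refine ⟨MonoidHom.mk' (fun τ => Multiplicative.ofAdd (k τ : ZMod l)) ?_, ?_, ?_, ?_⟩
  · intro τ σ
    rw [hmul, ofAdd_add]
  · intro τ
    show (τ : Ω ≃ₐ[F] Ω) y = y * z ^ ((k τ : ZMod l)).val
    rw [ZMod.val_natCast, pow_mod hz, hk]
  · intro g τ τ' h
    show (k τ' : ZMod l) = (b g : ZMod l) ^ t * (k τ : ZMod l)
    set e : ℕ := (b g : ZMod l).val with he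
    have he1 : ((e : ℕ) : ZMod l) = (b g : ZMod l) := by rw [he, ZMod.natCast_zmod_val]
    have he0 : ((e : ℕ) : ZMod l) ≠ 0 := by
      rw [he1]
      exact (b g).ne_zero
    obtain ⟨q, hq⟩ := reorder hl hz m (t - 1) e he0
    set γ : Ω := ∏ a ∈ Finset.Ico 1 l, ((m : Ω) + z ^ a) ^ q a with hγ
    have hγ0 : γ ≠ 0 := Finset.prod_ne_zero_iff.2 fun a _ => pow_ne_zero _ (hm a)
    have hγfix : (τ' : Ω ≃ₐ[F] Ω) γ = γ := by
      rw [hγ, map_prod]
      refine Finset.prod_congr rfl fun a _ => ?_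
      rw [map_pow, map_add, map_intCast, map_pow, hfix]
    have h1 : ((g y) ^ e ^ (t - 1)) ^ l = (y * γ) ^ l := by
      rw [← pow_mul, mul_comm, pow_mul, ← map_pow, hy, mul_pow, hy, hβ, ← hq, map_prod]
      congr 1
      refine Finset.prod_congr rfl fun a _ => ?_
      rw [map_pow, map_add, map_intCast, map_pow, hb]
    obtain ⟨j, hj⟩ := exists_root hl hz h1 (mul_ne_zero hy0 hγ0)
    have h2 : (τ' : Ω ≃ₐ[F] Ω) (g y) = g y * (z ^ e) ^ k τ := by
      rw [h, AlgEquiv.mul_apply, AlgEquiv.mul_apply]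
      have : (g⁻¹ : Ω ≃ₐ[F] Ω) (g y) = y := by
        rw [← AlgEquiv.mul_apply, inv_mul_cancel, AlgEquiv.one_apply]
      rw [this, hk τ, map_mul, map_pow, hb]
    have h3 := congrArg (τ' : Ω ≃ₐ[F] Ω) hj
    rw [map_pow, h2, map_mul, map_mul, hγfix, hk τ', map_pow, hfix, mul_pow, hj] at h3
    have h4 : (y * γ * z ^ j) * ((z ^ e) ^ k τ) ^ e ^ (t - 1) = (y * γ * z ^ j) * z ^ k τ' := by
      rw [h3]
      ring
    have h5 := mul_left_cancel₀ (mul_ne_zero (mul_ne_zero hy0 hγ0) (pow_ne_zero _ hz0)) h4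
    rw [← pow_mul, ← pow_mul, pow_iff hl.pos hz] at h5
    rw [← h5]
    push_cast
    rw [he1]
    obtain ⟨t', rfl⟩ : ∃ t', t = t' + 1 := ⟨t - 1, by omega⟩
    rw [Nat.add_sub_cancel]
    ring
  · by_contra hcon
    push Not at hcon
    refine hnot y ?_ hy
    rw [← InfiniteGalois.fixedField_fixingSubgroup F⟮z⟯, IntermediateField.mem_fixedField_iff]
    intro g hg
    have hgz : g z = z := by
      rw [IntermediateField.mem_fixingSubgroup_iff] at hg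
      exact hg z (IntermediateField.mem_adjoin_simple_self F z)
    have hgb : b g = 1 := by
      have h1 := hb g
      rw [hgz] at h1
      have h2 : z ^ 1 = z ^ (b g : ZMod l).val := by rw [pow_one, ← h1]
      rw [pow_iff hl.pos hz, ZMod.natCast_zmod_val, Nat.cast_one] at h2
      exact Units.ext h2.symm
    have h1 := hcon ⟨g, MonoidHom.mem_ker.2 hgb⟩
    have h2 : ((k ⟨g, MonoidHom.mem_ker.2 hgb⟩ : ℕ) : ZMod l) = 0 := congrArg Multiplicative.toAdd h1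
    have h3 := hk ⟨g, MonoidHom.mem_ker.2 hgb⟩
    have h4 : z ^ k ⟨g, MonoidHom.mem_ker.2 hgb⟩ = 1 := by
      have := (pow_iff hl.pos hz (k ⟨g, MonoidHom.mem_ker.2 hgb⟩) 0).2 (by rw [h2, Nat.cast_zero])
      rw [this, pow_zero]
    rw [h4, mul_one] at h3
    exact h3

end Pool.Agent.Helper74.QN.KUM
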