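import Pool.Agent.Helper74.QN.Stm

/-!
# Roots of unity with a large cyclotomic character
-/

set_option autoImplicit false

namespace Pool.Agent.Helper74.QN.ZL

open NumberField IntermediateField

theorem main : S_ZL := by
  intro F Ω _ _ _ _ _ n hn
  have hcl : IsAlgClosed Ω := IsAlgClosure.isAlgClosed F
  have hch : CharZero Ω := charZero_of_injective_algebraMap (algebraMap F Ω).injective
  set D := Module.finrank ℚ F with hD
  have hD0 : 0 < D := Module.finrank_pos
  obtain ⟨l, hl, hl2, hl1⟩ := Nat.exists_prime_gt_modEq_one (k := n * D) 2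
    (mul_ne_zero hn.ne' hD0.ne')
  have hfl : Fact l.Prime := ⟨hl⟩
  have hnz : NeZero l := ⟨hl.ne_zero⟩
  have hdvd : n * D ∣ l - 1 := (Nat.modEq_iff_dvd' hl.one_lt.le).1 hl1.symm
  have hnzΩ : NeZero ((l : ℕ) : Ω) := ⟨by exact_mod_cast hl.ne_zero⟩
  obtain ⟨z, hz0⟩ := IsAlgClosed.exists_root (Polynomial.cyclotomic l Ω)
    (by rw [Polynomial.degree_cyclotomic]; exact_mod_cast (Nat.totient_pos.2 hl.pos).ne')
  have hz : IsPrimitiveRoot z l := Polynomial.isRoot_cyclotomic_iff.1 hz0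
  have halg : Algebra.IsAlgebraic F Ω := IsAlgClosure.isAlgebraic
  have hint : Algebra.IsIntegral F Ω := inferInstance
  have hnormΩ : Normal F Ω := IsAlgClosure.normal F Ω
  have hcyc : IsCyclotomicExtension {l} F F⟮z⟯ :=
    IsPrimitiveRoot.intermediateField_adjoin_isCyclotomicExtension F hz
  have hgal : IsGalois F F⟮z⟯ := IsCyclotomicExtension.isGalois {l} F F⟮z⟯
  have hfd : FiniteDimensional F F⟮z⟯ := adjoin.finiteDimensional (hint.isIntegral z)
  set z' : F⟮z⟯ := ⟨z, mem_adjoin_simple_self F z⟩ with hz'def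
  have hz' : IsPrimitiveRoot z' l := by
    apply IsPrimitiveRoot.of_map_of_injective (f := algebraMap F⟮z⟯ Ω)
    · exact hz
    · exact (algebraMap F⟮z⟯ Ω).injective
  set b' := IsPrimitiveRoot.autToPow F hz' with hb'
  have hinj : Function.Injective b' := IsPrimitiveRoot.autToPow_injective F hz'
  set r : (Ω ≃ₐ[F] Ω) →* (F⟮z⟯ ≃ₐ[F] F⟮z⟯) := AlgEquiv.restrictNormalHom F⟮z⟯ with hr
  have hsurj : Function.Surjective r := AlgEquiv.restrictNormalHom_surjective Ω
  refine ⟨l, z, b'.comp r, hl, hl2, hz, ?_, ?_⟩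
  · intro g
    have h1 := IsPrimitiveRoot.autToPow_spec F hz' (r g)
    have h2 : algebraMap F⟮z⟯ Ω (r g z') = g (algebraMap F⟮z⟯ Ω z') :=
      AlgEquiv.restrictNormal_commutes g F⟮z⟯ z'
    have h3 : algebraMap F⟮z⟯ Ω z' = z := rfl
    rw [h3, ← h1, map_pow, h3] at h2
    exact h2.symm
  · have hrange : (b'.comp r).range = b'.range := by
      ext y
      simp only [MonoidHom.mem_range, MonoidHom.comp_apply]
      constructor
      · rintro ⟨g, hg⟩
        exact ⟨r g, hg⟩
      · rintro ⟨g, hg⟩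
        obtain ⟨g', rfl⟩ := hsurj g
        exact ⟨g', hg⟩
    have hcard : Nat.card (b'.comp r).range = Module.finrank F F⟮z⟯ := by
      rw [hrange, ← IsGalois.card_aut_eq_finrank]
      exact Nat.card_congr (MonoidHom.ofInjective hinj).toEquiv.symm
    rw [hcard]
    have hch' : CharZero F⟮z⟯ := charZero_of_injective_algebraMap (algebraMap F F⟮z⟯).injective
    have hfdQ : FiniteDimensional ℚ F⟮z⟯ := Module.Finite.trans F F⟮z⟯
    have h1 : (minpoly ℚ z').natDegree ∣ Module.finrank ℚ F⟮z⟯ :=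
      minpoly.degree_dvd (IsIntegral.of_finite ℚ z')
    rw [← Polynomial.cyclotomic_eq_minpoly_rat hz' hl.pos, Polynomial.natDegree_cyclotomic,
      Nat.totient_prime hl, ← Module.finrank_mul_finrank ℚ F F⟮z⟯] at h1
    have h2 : n * D ∣ D * Module.finrank F F⟮z⟯ := hdvd.trans h1
    rw [mul_comm n D] at h2
    exact Nat.dvd_of_mul_dvd_mul_left hD0 h2

end Pool.Agent.Helper74.QN.ZL
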