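import Pool.Agent.Helper74.QN.FIN
import Pool.Agent.Helper74.QN.ZL
import Pool.Agent.Helper74.QN.BETA
import Pool.Agent.Helper74.QN.KUM
import Pool.Agent.Helper74.QN.CHI
import Pool.Agent.Helper74.QN.IND
import Pool.Agent.Helper74.QR.KF
import Pool.Agent.Helper74.QE.UNRF

/-!
# Absolutely irreducible representations of every odd degree over finite fields of characteristic 2 with image of
odd order, finitely ramified, over every number field (helpers 19, 27, 29, 74, 88, 90)
-/

set_option autoImplicit false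

namespace Pool.Agent.Helper74.QN

open NumberField IsDedekindDomain MZ

/-- for every number field `F` and every odd `n` -/
def S_QEN : Prop :=
  ∀ (F Ω : Type) [Field F] [NumberField F] [Field Ω] [Algebra F Ω] [IsAlgClosure F Ω] (n : ℕ), Odd n →
    ∃ (S₀ : Set (HeightOneSpectrum (𝓞 F))) (k : Type) (_ : Field k) (_ : Finite k) (_ : CharP k 2)
      (ρ₀ : GFS Ω S₀ →* GL (Fin n) k),
      S₀.Finite ∧ (∀ v : HeightOneSpectrum (𝓞 F), (2 : 𝓞 F) ∈ v.asIdeal → v ∈ S₀) ∧
      IsOpen (ρ₀.ker : Set (GFS Ω S₀)) ∧ AbsIrred ρ₀ ∧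
      (∀ g, g * g = 1 → ρ₀ g = 1) ∧ Odd (Nat.card ρ₀.range)

theorem all : S_QEN := by
  intro F Ω _ _ _ _ _ n hn
  exact FIN.main Pool.Agent.Helper74.QR.KF.main BETA.main ZL.main KUM.main CHI.main IND.main
    Pool.Agent.Helper74.QE.UNRF.main F Ω n hn

end Pool.Agent.Helper74.QN
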