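import Pool.Agent.Helper74.QN.Stm
import Pool.Agent.Helper74.QR.Stm
import Pool.Agent.Helper74.QE.Stm
import Pool.Graph.R_seed8.W178.MZ.K6

/-!
# Assembly: residual representations of odd image of every odd degree over every number field (helper74)
-/

set_option autoImplicit false

namespace Pool.Agent.Helper74.QN.FIN

open NumberField IsDedekindDomain IntermediateField MZ

theorem odd_card {G : Type} [Group G] [Finite G] (m : ℕ) (hm : Odd m) (h : ∀ g : G, g ^ m = 1) :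
    Odd (Nat.card G) := by
  rw [← Nat.not_even_iff_odd, even_iff_two_dvd]
  intro h2
  haveI : Fact (Nat.Prime 2) := ⟨Nat.prime_two⟩
  obtain ⟨g, hg⟩ := exists_prime_orderOf_dvd_card' 2 h2
  have h3 : orderOf g ∣ m := orderOf_dvd_of_pow_eq_one (h g)
  rw [hg] at h3
  exact (Nat.not_even_iff_odd.mpr hm) (even_iff_two_dvd.mpr h3)

theorem main (hKF : Pool.Agent.Helper74.QR.S_KF) (hBETA : S_BETA) (hZL : S_ZL) (hKUM : S_KUM) (hCHI : S_CHI)
    (hIND : S_IND) (hU : Pool.Agent.Helper74.QE.S_UNRF)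
    (F Ω : Type) [Field F] [NumberField F] [Field Ω] [Algebra F Ω] [IsAlgClosure F Ω]
    (n : ℕ) (hn : Odd n) :
    ∃ (S₀ : Set (HeightOneSpectrum (𝓞 F))) (k : Type) (_ : Field k) (_ : Finite k) (_ : CharP k 2)
    (ρ₀ : GFS Ω S₀ →* GL (Fin n) k),
    S₀.Finite ∧ (∀ v : HeightOneSpectrum (𝓞 F), (2 : 𝓞 F) ∈ v.asIdeal → v ∈ S₀) ∧
    IsOpen (ρ₀.ker : Set (GFS Ω S₀)) ∧ AbsIrred ρ₀ ∧ (∀ g, g * g = 1 → ρ₀ g = 1) ∧
    Odd (Nat.card ρ₀.range) := by
  have hn1 : 1 ≤ n := hn.pos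
  have hcl : IsAlgClosed Ω := IsAlgClosure.isAlgClosed F
  have hch : CharZero Ω := charZero_of_injective_algebraMap (algebraMap F Ω).injective
  have halg : Algebra.IsAlgebraic F Ω := IsAlgClosure.isAlgebraic
  have hnorm : Normal F Ω := IsAlgClosure.normal F Ω
  obtain ⟨l, z, b, hl, hl2, hz, hb, hdvd⟩ := hZL F Ω n hn1
  have hlo : Odd l := hl.odd_of_ne_two (by omega)
  haveI : Fact l.Prime := ⟨hl⟩
  have hl0 : 0 < l := hl.pos
  have hint : IsIntegral F z := Algebra.IsIntegral.isIntegral z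
  have hfdE : FiniteDimensional F F⟮z⟯ := IntermediateField.adjoin.finiteDimensional hint
  have hnfE : NumberField F⟮z⟯ := NumberField.of_module_finite F F⟮z⟯
  let zE : F⟮z⟯ := ⟨z, IntermediateField.mem_adjoin_simple_self F z⟩
  have hzE : IsPrimitiveRoot zE l :=
    IsPrimitiveRoot.of_map_of_injective (f := algebraMap F⟮z⟯ Ω) hz (algebraMap F⟮z⟯ Ω).injective
  obtain ⟨m, hm0, hm⟩ := hBETA F⟮z⟯ l zE hl hzE
  set t : ℕ := Nat.card b.range / n with ht
  have hcard : 0 < Nat.card b.range := Nat.card_pos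
  have ht1 : 1 ≤ t := Nat.div_pos (Nat.le_of_dvd hcard hdvd) hn1
  have hm0' : ∀ a : ℕ, (m : Ω) + z ^ a ≠ 0 := by
    intro a h
    exact hm0 a (Subtype.ext h)
  have hm' : ∀ x ∈ F⟮z⟯, x ^ l ≠ ∏ a ∈ Finset.Ico 1 l, ((m : Ω) + z ^ a) ^ a ^ (t - 1) := by
    intro x hx h
    refine hm (fun a => a ^ (t - 1)) (by rw [one_pow]; exact hl.one_lt.ne' ∘ Nat.dvd_one.mp) ⟨x, hx⟩ ?_
    apply Subtype.ext
    push_cast
    exact h
  obtain ⟨y, hy⟩ := IsAlgClosed.exists_pow_nat_eq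
    (∏ a ∈ Finset.Ico 1 l, ((m : Ω) + z ^ a) ^ a ^ (t - 1)) hl0
  obtain ⟨u, hu1, hu2, hu3⟩ := hKUM F Ω l z y m t b hl hz hb ht1 hm0' hy hm'
  obtain ⟨k, _, _, _, w, hw⟩ := hKF l hlo
  obtain ⟨N, χ, hN1, hN2, hN3, hN4, hN5⟩ := hCHI (Ω ≃ₐ[F] Ω) l n b u hl hn1 hdvd hu2 hu3 k w hw
  obtain ⟨ρ, hirr, hker, hexp⟩ := hIND (Ω ≃ₐ[F] Ω) N n k χ hN1 hn1 hN2 hN3
  have hβ0 : (∏ a ∈ Finset.Ico 1 l, ((m : Ω) + z ^ a) ^ a ^ (t - 1)) ≠ 0 :=
    Finset.prod_ne_zero_iff.mpr fun a _ => pow_ne_zero _ (hm0' a)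
  have hy0 : y ≠ 0 := by
    rintro rfl
    rw [zero_pow hl0.ne'] at hy
    exact hβ0 hy.symm
  have hval1 : (1 : ZMod l).val = 1 := by
    haveI : Fact (1 < l) := ⟨hl.one_lt⟩
    exact ZMod.val_one l
  have hρ1 : ∀ g : Ω ≃ₐ[F] Ω, g z = z → g y = y → ρ g = 1 := by
    intro g h1 h2
    have hbg : b g = 1 := by
      have h3 := hb g
      rw [h1] at h3
      have h4 : z ^ (1 : ZMod l).val = z ^ (b g : ZMod l).val := by rw [hval1, pow_one]; exact h3
      have h5 := hz.pow_inj (ZMod.val_lt _) (ZMod.val_lt _) h4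
      exact Units.ext (ZMod.val_injective l h5).symm
    have hgk : g ∈ b.ker := hbg
    have hug : u ⟨g, hgk⟩ = 1 := by
      have h3 := hu1 ⟨g, hgk⟩
      have h3' : g y = y * z ^ (u ⟨g, hgk⟩).toAdd.val := h3
      rw [h2] at h3'
      have h4 : z ^ (0 : ZMod l).val = z ^ (u ⟨g, hgk⟩).toAdd.val := by
        rw [ZMod.val_zero, pow_zero]
        exact mul_left_cancel₀ hy0 (by rw [mul_one]; exact h3')
      have h5 := hz.pow_inj (ZMod.val_lt _) (ZMod.val_lt _) h4
      have h6 := (ZMod.val_injective l h5).symm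
      exact h6
    exact hker g (hN5 ⟨g, hgk⟩ hug)
  have hρ2 := hexp l hN4
  -- the field `F(z, y)`
  let L : IntermediateField F Ω := IntermediateField.adjoin F {z, y}
  have hfd : FiniteDimensional F L := by
    apply IntermediateField.finiteDimensional_adjoin
    intro z _
    exact Algebra.IsIntegral.isIntegral z
  obtain ⟨S₁, hS₁, hunr⟩ := hU F Ω L
  let S₂ : Set (HeightOneSpectrum (𝓞 F)) := {v | (2 : 𝓞 F) ∈ v.asIdeal}
  have hS₂ : S₂.Finite := by
    have h0 : (Ideal.span {(2 : 𝓞 F)}) ≠ 0 := by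
      rw [Ne, Ideal.zero_eq_bot, Ideal.span_singleton_eq_bot]
      norm_num
    refine (Ideal.finite_factors h0).subset ?_
    intro v hv
    show v.asIdeal ∣ _
    rw [Ideal.dvd_iff_le, Ideal.span_singleton_le_iff_mem]
    exact hv
  let S₀ : Set (HeightOneSpectrum (𝓞 F)) := S₁ ∪ S₂
  have hle : L ≤ (FSmax S₀ : IntermediateField F Ω) := by
    unfold FSmax
    exact le_iSup (fun K : {K : IntermediateField F Ω //
      FiniteDimensional F K ∧ UnramifiedOutside S₀ K} => K.1)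
      ⟨L, hfd, fun w hw => hunr w fun v hv => hw v (Or.inl hv)⟩
  have hgS : IsGalois F (FSmax S₀ : IntermediateField F Ω) := Pool.Agent.W178.MZK.K7 F Ω S₀
  let M : IntermediateField F Ω := FSmax S₀
  have hzM : z ∈ M := hle (IntermediateField.subset_adjoin _ _ (by simp))
  have hyM : y ∈ M := hle (IntermediateField.subset_adjoin _ _ (by simp))
  let r : (Ω ≃ₐ[F] Ω) →* Gal(M/F) := AlgEquiv.restrictNormalHom M
  have hr : Function.Surjective r := AlgEquiv.restrictNormalHom_surjective Ω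
  have hrc : ∀ g (x : M), ((r g x : M) : Ω) = g x := fun g x => AlgEquiv.restrictNormal_commutes g M x
  have hkr : r.ker ≤ ρ.ker := by
    intro g hg
    rw [MonoidHom.mem_ker] at hg ⊢
    apply hρ1
    · have := hrc g ⟨z, hzM⟩
      rw [hg] at this
      exact this.symm
    · have := hrc g ⟨y, hyM⟩
      rw [hg] at this
      exact this.symm
  let ρ₀ : Gal(M/F) →* GL (Fin n) k := (MonoidHom.liftOfSurjective r hr) ⟨ρ, hkr⟩
  have hρ₀ : ∀ g, ρ₀ (r g) = ρ g := fun g =>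
    MonoidHom.liftOfRightInverse_comp_apply r (Function.surjInv hr) (Function.rightInverse_surjInv hr) ⟨ρ, hkr⟩ g
  have hexp0 : ∀ g, ρ₀ g ^ (n * l) = 1 := by
    intro g
    obtain ⟨g', rfl⟩ := hr g
    rw [hρ₀]
    exact hρ2 g'
  have hodd : Odd (n * l) := hn.mul hlo
  refine ⟨S₀, k, inferInstance, inferInstance, inferInstance, ρ₀, hS₁.union hS₂,
    fun v hv => Or.inr hv, ?_, ?_, ?_, ?_⟩
  · let zM : M := ⟨z, hzM⟩
    let yM : M := ⟨y, hyM⟩
    let L' : IntermediateField F M := IntermediateField.adjoin F {zM, yM}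
    have hfd' : FiniteDimensional F L' := by
      apply IntermediateField.finiteDimensional_adjoin
      intro z _
      exact Algebra.IsIntegral.isIntegral z
    refine Subgroup.isOpen_mono (H₁ := L'.fixingSubgroup) ?_ (IntermediateField.fixingSubgroup_isOpen L')
    intro g hg
    obtain ⟨g', rfl⟩ := hr g
    rw [MonoidHom.mem_ker, hρ₀]
    rw [IntermediateField.mem_fixingSubgroup_iff] at hg
    apply hρ1
    · have h1 := hg zM (IntermediateField.subset_adjoin _ _ (by simp))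
      have h2 := hrc g' zM
      rw [h1] at h2
      exact h2.symm
    · have h1 := hg yM (IntermediateField.subset_adjoin _ _ (by simp))
      have h2 := hrc g' yM
      rw [h1] at h2
      exact h2.symm
  · intro V hV
    apply hirr V
    intro g x hx
    have := hV (r g) x hx
    rw [hρ₀] at this
    exact this
  · intro g hg
    have h1 : ρ₀ g * ρ₀ g = 1 := by rw [← map_mul, hg, map_one]
    obtain ⟨q, hq⟩ := hodd
    have h3 := hexp0 g
    rw [hq, pow_succ, pow_mul, pow_two, h1, one_pow, one_mul] at h3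
    exact h3
  · have : Finite (GL (Fin n) k) := inferInstance
    refine odd_card (n * l) hodd ?_
    rintro ⟨x, g, rfl⟩
    exact Subtype.ext (hexp0 g)

end Pool.Agent.Helper74.QN.FIN
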