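import Mathlib

/-!
# Absolutely irreducible representations of every odd degree `n` in characteristic 2 with image of odd order, over
every number field: statements of the modules (helper74)

`l ≡ 1 mod n [F : ℚ]` is a prime, `z` a primitive `l`-th root of unity, `g z = z^(b g)`. The order `h` of the
image of `b` is divisible by `n`; put `t = h / n`. With `β = ∏_{0 < a < l} (m + z^a)^(a^(t-1))`, not an `l`-th power
in `F(z)`, and `y^l = β`, let `τ y = y z^(u τ)` for `τ` in the kernel of `b`. Then `u (g τ g⁻¹) = (b g)^t u τ`. Let `N`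
be the kernel of `b^t`, of index `n`. The character `w^u` of `ker b` gives a character of `N`
(`g ↦ w^(u (g^t))`), whose conjugates are different; the induced representation has degree `n`.
-/

set_option autoImplicit false

namespace Pool.Agent.Helper74.QN

open NumberField IntermediateField

/-- ZL: the root of unity. Proof: `D = [F : ℚ]`, `l` a prime, `l ≡ 1 mod n D`, `l > 2` (`Nat.exists_prime_gt_modEq_one`),
`b` the cyclotomic character (e.g. `modularCyclotomicCharacter` or `IsPrimitiveRoot.autToPow` for `F(z)`, composed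
with the restriction). `card (range b) = [F(z) : F]` (the restriction is onto `Gal(F(z)/F)`, which `b` embeds),
`(l-1) ∣ [F(z) : ℚ] = D card (range b)`, as `ℚ(z) ⊆ F(z)`, so `n D ∣ D card (range b)`. -/
def S_ZL : Prop :=
  ∀ (F Ω : Type) [Field F] [NumberField F] [Field Ω] [Algebra F Ω] [IsAlgClosure F Ω] (n : ℕ), 0 < n →
    ∃ (l : ℕ) (z : Ω) (b : (Ω ≃ₐ[F] Ω) →* (ZMod l)ˣ), l.Prime ∧ 2 < l ∧ IsPrimitiveRoot z l ∧
      (∀ g, g z = z ^ (b g : ZMod l).val) ∧ n ∣ Nat.card b.range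

/-- BETA. Proof (as `Pool.Agent.Helper74.QR.BETA`): `p ≡ 1 mod l` a prime, unramified in `E` and different from `l`
(large), `P` a prime of `E` above `p`. `z` is congruent to an integer `r` modulo `P` (all `l`-th roots of unity
of `O_E / P` are in `𝔽_p`); if `v_P (z - r) ≥ 2` replace `r` by `r + p`. So `v_P (z - r) = 1`, and
`v_P (z^a - r) = 0` for the other `a`, as `z^a - z ∉ P`. Put `m = - r`: then `v_P` of the product is `c 1`. -/
def S_BETA : Prop :=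
  ∀ (E : Type) [Field E] [NumberField E] (l : ℕ) (z : E), l.Prime → IsPrimitiveRoot z l →
    ∃ m : ℤ, (∀ a : ℕ, (m : E) + z ^ a ≠ 0) ∧ ∀ c : ℕ → ℕ, ¬ l ∣ c 1 →
      ∀ x : E, x ^ l ≠ ∏ a ∈ Finset.Ico 1 l, ((m : E) + z ^ a) ^ c a

/-- KUM: Kummer theory. `u` exists on `ker b` (`τ z = z`, `τ β = β`), it is a homomorphism, and not
trivial as `y ∉ F(z)` (`Ω / F(z)` is Galois and `ker b` is its Galois group). Conjugation: let `g z = z^e`, `e = (b g).val`. As
`g β = ∏ (m + z^(e a))^(a^(t-1))`, one has `(g β)^(e^(t-1)) = ∏ (m + z^(e a))^((e a)^(t-1)) = β γ^l` with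
`γ ∈ F(z)`, `γ ≠ 0` (reorder by `a' = e a mod l`; the exponents are congruent mod `l`), so
`(g y)^(e^(t-1)) = y γ z^j`. Apply `τ' = g τ g⁻¹ ∈ ker b`: `τ' (g y) = g (y z^(u τ)) = g y z^(e u τ)`, so
`z^(e^t u τ) (g y)^(e^(t-1)) = z^(u τ') y γ z^j`, and `u τ' = e^t u τ`. -/
def S_KUM : Prop :=
  ∀ (F Ω : Type) [Field F] [NumberField F] [Field Ω] [Algebra F Ω] [IsAlgClosure F Ω] (l : ℕ) (z y : Ω) (m : ℤ)
    (t : ℕ) (b : (Ω ≃ₐ[F] Ω) →* (ZMod l)ˣ), l.Prime → IsPrimitiveRoot z l →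
    (∀ g, g z = z ^ (b g : ZMod l).val) → 1 ≤ t → (∀ a : ℕ, (m : Ω) + z ^ a ≠ 0) →
    y ^ l = ∏ a ∈ Finset.Ico 1 l, ((m : Ω) + z ^ a) ^ a ^ (t - 1) →
    (∀ x ∈ F⟮z⟯, x ^ l ≠ ∏ a ∈ Finset.Ico 1 l, ((m : Ω) + z ^ a) ^ a ^ (t - 1)) →
    ∃ u : b.ker →* Multiplicative (ZMod l),
      (∀ τ : b.ker, (τ : Ω ≃ₐ[F] Ω) y = y * z ^ (u τ).toAdd.val) ∧
      (∀ (g : Ω ≃ₐ[F] Ω) (τ τ' : b.ker), (τ' : Ω ≃ₐ[F] Ω) = g * τ * g⁻¹ →
        (u τ').toAdd = (b g : ZMod l) ^ t * (u τ).toAdd) ∧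
      ∃ τ, u τ ≠ 1

/-- CHI (group theory). `h = card (range b)`, `t = h / n`, `N` = kernel of `b^t`, of index `n` (`range b` is cyclic of
order `n t`), `g^t ∈ ker b` for `g ∈ N`. `u` is invariant under `N`, so `ker b / ker u` is central in
`N / ker u` with cyclic quotient `⊆ range b`; hence `N / ker u` is commutative (`commutative_of_cyclic_center_quotient`), and
`f g = u (g^t)` is a homomorphism, `f τ = t u τ` for `τ ∈ ker b`, `l ∤ t` (`t ∣ l - 1`). Put `χ g = w^(f g)`. For `s ∉ N`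
and `u τ ≠ 1`: `f (s τ s⁻¹) = t (b s)^t u τ ≠ f τ`. -/
def S_CHI : Prop :=
  ∀ (G : Type) [Group G] (l n : ℕ) (b : G →* (ZMod l)ˣ) (u : b.ker →* Multiplicative (ZMod l)), l.Prime →
    1 ≤ n → n ∣ Nat.card b.range →
    (∀ (g : G) (τ τ' : b.ker), (τ' : G) = g * τ * g⁻¹ →
      (u τ').toAdd = (b g : ZMod l) ^ (Nat.card b.range / n) * (u τ).toAdd) →
    (∃ τ, u τ ≠ 1) →
    ∀ (k : Type) [Field k] (w : k), IsPrimitiveRoot w l →
    ∃ (N : Subgroup G) (χ : N →* kˣ), N.Normal ∧ N.index = n ∧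
      (∀ s : G, s ∉ N → ∃ (x : N) (h : s * (x : G) * s⁻¹ ∈ N), χ ⟨s * x * s⁻¹, h⟩ ≠ χ x) ∧
      (∀ x : N, χ x ^ l = 1) ∧
      ∀ g : b.ker, u g = 1 → ∀ x : G, ∃ h : x * g * x⁻¹ ∈ N, χ ⟨x * g * x⁻¹, h⟩ = 1

/-- IND (group theory): the representation of `G` induced from the character `χ` of the normal subgroup `N`
of index `n`, `ρ(g) i j = χ (r_i⁻¹ g r_j)` if this lies in `N` and `0` otherwise (adapt
`Pool.Agent.Helper74.QR.IND`, where `n = 3`). It is absolutely irreducible because the `n` conjugates of `χ` are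
different: by linear independence of characters the restrictions to `N` span all diagonal matrices. -/
def S_IND : Prop :=
  ∀ (G : Type) [Group G] (N : Subgroup G) (n : ℕ) (k : Type) [Field k] (χ : N →* kˣ), N.Normal → 1 ≤ n →
    N.index = n →
    (∀ s : G, s ∉ N → ∃ (x : N) (h : s * (x : G) * s⁻¹ ∈ N), χ ⟨s * x * s⁻¹, h⟩ ≠ χ x) →
    ∃ ρ : G →* Matrix.GeneralLinearGroup (Fin n) k,
      (∀ V : Submodule (AlgebraicClosure k) (Fin n → AlgebraicClosure k),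
        (∀ g, ∀ x ∈ V,
          ((ρ g : Matrix (Fin n) (Fin n) k).map (algebraMap k (AlgebraicClosure k))).mulVec x ∈ V) →
        V = ⊥ ∨ V = ⊤) ∧
      (∀ g : G, (∀ x : G, ∃ h : x * g * x⁻¹ ∈ N, χ ⟨x * g * x⁻¹, h⟩ = 1) → ρ g = 1) ∧
      ∀ M : ℕ, (∀ x : N, χ x ^ M = 1) → ∀ g : G, ρ g ^ (n * M) = 1

end Pool.Agent.Helper74.QN
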